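import Pool.Agent.Helper95.HV.Stmts
import Pool.Agent.Helper43.PM.SHLM
import Pool.Agent.Helper1.PM.BIDM
import Pool.Agent.Helper13.PM.HA3

/-!
# Row MSZ: momentum in a shell, many nuclei
-/

set_option autoImplicit false

namespace Pool.Agent.Helper80.HV

open MeasureTheory Filter Pool.Agent.Helper95 Pool.Agent.Helper95.PW Pool.Agent.Helper95.LN
  Pool.Agent.Helper95.CF Pool.Agent.Helper95.HV

theorem near1_nn {M : ℕ} (X : Fin M → R3) (d : ℝ) (y : R3) : 0 ≤ near1 X d y := by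
  unfold near1
  refine Finset.sum_nonneg fun j _ => ?_
  split_ifs
  · exact div_nonneg zero_le_one (bid_nr _)
  · exact le_refl _

theorem near1_le {M : ℕ} (X : Fin M → R3) (d : ℝ) (y : R3) :
    near1 X d y ≤ ∑ j, (1 + 1 / nr (y - X j) ^ 2) := by
  unfold near1
  refine Finset.sum_le_sum fun j _ => ?_
  have h : 0 ≤ 1 / nr (y - X j) ^ 2 := by positivity
  split_ifs
  · have e : 1 / nr (y - X j) ^ 2 = (1 / nr (y - X j)) ^ 2 := by rw [div_pow, one_pow]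
    rw [e]
    nlinarith [sq_nonneg (1 / nr (y - X j) - 1), sq_nonneg (1 / nr (y - X j))]
  · linarith

theorem nearB {n M : ℕ} (X : Fin M → R3) (d : ℝ) {u : Wf n} (hu : Sm u) :
    one (near1 X d) u ≤ M * (n * PW.sq u + 4 * kin u) := by
  have hs : ∀ s, ∫ x, (∑ k, near1 X d (x k)) * u s x ^ 2 ≤
      ∑ k, ∑ _j : Fin M, ((∫ x, u s x ^ 2) + 4 * ∑ i, ∫ x, dv k i (u s) x ^ 2) := by
    intro s
    have hH := fun (k : Fin n) (j : Fin M) => st_HA3 n k (X j) (u s) (hu s).1 (hu s).2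
    have h2 := shl_sqint (hu s).1.continuous (hu s).2
    have hI : ∀ (k : Fin n) (j : Fin M), Integrable (fun x : Cf n => u s x ^ 2 +
        u s x ^ 2 / nr (x k - X j) ^ 2) := fun k j => h2.add (hH k j).1
    have hI2 : ∀ k : Fin n, Integrable (fun x : Cf n => ∑ j, (u s x ^ 2 +
        u s x ^ 2 / nr (x k - X j) ^ 2)) := fun k => integrable_finsetSum _ fun j _ => hI k j
    have hint : Integrable (fun x : Cf n => ∑ k, ∑ j, (u s x ^ 2 +
        u s x ^ 2 / nr (x k - X j) ^ 2)) :=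
      integrable_finsetSum _ fun k _ => hI2 k
    calc ∫ x, (∑ k, near1 X d (x k)) * u s x ^ 2
        ≤ ∫ x, ∑ k, ∑ j, (u s x ^ 2 + u s x ^ 2 / nr (x k - X j) ^ 2) := by
          refine integral_mono_of_nonneg (Eventually.of_forall fun x => ?_) hint
            (Eventually.of_forall fun x => ?_)
          · exact mul_nonneg (Finset.sum_nonneg fun k _ => near1_nn X d _) (sq_nonneg _)
          · simp only []
            rw [Finset.sum_mul]
            refine Finset.sum_le_sum fun k _ => ?_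
            refine (mul_le_mul_of_nonneg_right (near1_le X d (x k)) (sq_nonneg _)).trans ?_
            rw [Finset.sum_mul]
            refine Finset.sum_le_sum fun j _ => le_of_eq ?_
            ring
      _ = ∑ k, ∑ j, ((∫ x, u s x ^ 2) + ∫ x, u s x ^ 2 / nr (x k - X j) ^ 2) := by
          rw [integral_finsetSum _ fun k _ => hI2 k]
          refine Finset.sum_congr rfl fun k _ => ?_
          rw [integral_finsetSum _ fun j _ => hI k j]
          refine Finset.sum_congr rfl fun j _ => ?_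
          exact integral_add h2 (hH k j).1
      _ ≤ _ := by
          refine Finset.sum_le_sum fun k _ => Finset.sum_le_sum fun j _ => ?_
          have a := (hH k j).2
          rw [integral_finsetSum _ fun i _ => shl_sqint (bid_dv k i (hu s).1).continuous
            (shl_dv_cs k i (hu s).2)] at a
          linarith
  unfold one
  refine (Finset.sum_le_sum fun s _ => hs s).trans (le_of_eq ?_)
  simp only [Finset.sum_const, Finset.card_univ, Fintype.card_fin, nsmul_eq_mul]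
  unfold kin PW.sq
  simp only [Finset.sum_add_distrib, ← Finset.mul_sum, Finset.sum_const, Finset.card_univ,
    Fintype.card_fin, nsmul_eq_mul]
  have e : ∑ s, ∑ k, ∑ i, ∫ x, dv k i (u s) x ^ 2 = ∑ k, ∑ i, ∑ s, ∫ x, dv k i (u s) x ^ 2 := by
    rw [Finset.sum_comm]
    refine Finset.sum_congr rfl fun k _ => ?_
    rw [Finset.sum_comm]
  rw [← e]

theorem YY_mono {n M : ℕ} {C C' d z : ℝ} (X : Fin M → R3) (Z : Fin M → ℝ) (u : Wf n)
    (h : C ≤ C') (hz : 1 ≤ z) : YY C d z X Z u ≤ YY C' d z X Z u := by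
  unfold YY
  have h1 : 0 ≤ one (near1 X d) u := bid_one _ (near1_nn X d) u
  have h2 : (0 : ℝ) ≤ M := Nat.cast_nonneg M
  have h3 : 0 ≤ z ^ 2 * M + z * one (near1 X d) u := by
    have : 0 ≤ z := by linarith
    positivity
  have := mul_le_mul_of_nonneg_right h h3
  linarith

theorem MSZ_bid (h1 : ST_DBS) (h2 : ST_V2S) (h3 : ST_LOCY) (hSTB : ST_STB) (hKIN : ST_KINM)
    (hINT : ST_INTM) (hAED : ST_AED) (hPAN : ST_PAN) (d : ℝ) (hd : 0 < d) (hd1 : d ≤ 1) :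
    ∃ C : ℝ, 0 < C ∧ ∀ (z K ρ E : ℝ) (n M : ℕ) (X : Fin M → R3) (Z : Fin M → ℝ) (g : R3 → ℝ)
    (S : Set R3) (u : Wf n), Dat d z n X Z → 1 ≤ K → 0 < ρ → ρ ≤ d → Scale g K ρ →
    (∀ j y, nr (y - X j) < ρ → ∀ i, pd i g y = 0) →
    (∀ y, (∀ j, d / 2 < nr (y - X j)) → ∀ i, pd i g y = 0) →
    IsClosed S → (∀ y, y ∉ S → ∀ i, pd i g y = 0) → Sm u → PW.sq u ≤ 2 →
    0 ≤ YY C d z X Z u ∧
    QM X Z (fun s => Pg g (u s)) - E * PW.sq (fun s => Pg g (u s)) ≤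
      -(∑ s, ∫ x, Pg g (Pg g (u s)) x * (hmM X Z (u s) x - E * u s x)) +
      C * K ^ 2 * ((kin u + YY C d z X Z u) / ρ ^ 2 + one (ind S) u / ρ ^ 4) := by
  obtain ⟨C1, hC1, hK⟩ := hKIN
  obtain ⟨C2, hC2, hV⟩ := h2 d hd hd1
  obtain ⟨C0, C3, hC0, hC3, hL⟩ := h3 d hd hd1
  refine ⟨C1 + C2 * C3 + C3, by positivity, ?_⟩
  intro z K ρ E n M X Z g S u hD hK1 hρ hρd hg hnear hfar hS hgS hu hsq
  obtain ⟨hL1, hL2⟩ := hL z n M X Z hD
  obtain ⟨y0, yI, yB⟩ := hL2 u hu hsq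
  obtain ⟨dI, dE⟩ := h1 n M X Z g ρ u hg.sm hg.cs hρ hnear hu
  have hPu : Sm (fun s => Pg g (u s)) := (hSTB n g u hg.sm hu).2.1
  have hPPu : Sm (fun s => Pg g (Pg g (u s))) := (hSTB n g _ hg.sm hPu).2.1
  have c0 : 0 ≤ C2 * K ^ 2 / ρ ^ 2 := by positivity
  have key : ∑ s, ∫ x, D2 X Z g x * u s x ^ 2 ≤
      C2 * K ^ 2 / ρ ^ 2 * (C3 * YY C3 d z X Z u) := by
    calc ∑ s, ∫ x, D2 X Z g x * u s x ^ 2
        ≤ ∑ s, ∫ x, C2 * K ^ 2 / ρ ^ 2 * (C0 * ((Vc X Z x + C0 * (z ^ 2 * M +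
            z * ∑ k, near1 X d (x k))) * u s x ^ 2)) := by
          refine Finset.sum_le_sum fun s _ => integral_mono_ae (dI s)
            (((yI s).const_mul C0).const_mul _) ?_
          filter_upwards [hAED n M X] with x hx
          have a := hV z K ρ n M X Z g x hD hK1 hρ hρd hg hnear hfar hx
          have b := (hL1 x hx).2.2
          calc D2 X Z g x * u s x ^ 2
              ≤ (C2 * K ^ 2 / ρ ^ 2 * Loc d z X Z x) * u s x ^ 2 :=
                mul_le_mul_of_nonneg_right a (sq_nonneg _)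
            _ ≤ (C2 * K ^ 2 / ρ ^ 2 * (C0 * (Vc X Z x + C0 * (z ^ 2 * M +
                z * ∑ k, near1 X d (x k))))) * u s x ^ 2 :=
                mul_le_mul_of_nonneg_right (mul_le_mul_of_nonneg_left b c0) (sq_nonneg _)
            _ = _ := by ring
      _ = C2 * K ^ 2 / ρ ^ 2 * (C0 * ∑ s, ∫ x, (Vc X Z x + C0 * (z ^ 2 * M +
            z * ∑ k, near1 X d (x k))) * u s x ^ 2) := by
          simp only [integral_const_mul, Finset.mul_sum]
      _ ≤ _ := mul_le_mul_of_nonneg_left yB c0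
  have hs : ∀ s, ∫ x, (rep x - ∑ k, pot X Z (x k)) *
      (Pg g (u s) x ^ 2 + Pg g (Pg g (u s)) x * u s x) =
      ((∫ x, rep x * Pg g (u s) x ^ 2) + ∫ x, rep x * (Pg g (Pg g (u s)) x * u s x)) -
      ((∫ x, (∑ k, pot X Z (x k)) * Pg g (u s) x ^ 2) +
        ∫ x, (∑ k, pot X Z (x k)) * (Pg g (Pg g (u s)) x * u s x)) := by
    intro s
    obtain ⟨i1, i2, -, -⟩ := hINT n M X Z _ _ (hPu s).1 (hPu s).2 (hPu s).1 (hPu s).2
    obtain ⟨i3, i4, -, -⟩ := hINT n M X Z _ _ (hPPu s).1 (hPPu s).2 (hu s).1 (hu s).2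
    simp only [← pow_two] at i1 i2
    rw [← integral_add i2 i4, ← integral_add i1 i3]
    have j1 := i2.add i4
    have j2 := i1.add i3
    have j3 := integral_sub j1 j2
    simp only [Pi.add_apply] at j3
    rw [← j3]
    refine integral_congr_ae (Eventually.of_forall fun x => ?_)
    simp only []
    ring
  have hsum : pair (fun s => Pg g (u s)) +
      (∑ s, ∫ x, rep x * (Pg g (Pg g (u s)) x * u s x)) -
      (one (pot X Z) (fun s => Pg g (u s)) +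
      (∑ s, ∫ x, (∑ k, pot X Z (x k)) * (Pg g (Pg g (u s)) x * u s x))) =
      1 / 2 * ∑ s, ∫ x, D2 X Z g x * u s x ^ 2 := by
    rw [← dE, Finset.sum_congr rfl fun s _ => hs s]
    unfold pair one
    rw [Finset.sum_sub_distrib, Finset.sum_add_distrib, Finset.sum_add_distrib]
  have a1 := hK n g K ρ S u hg hρ hS hgS hu
  have a4 := bid_norm hPAN hSTB hg.sm hu
  have a6 : ∑ s, ∫ x, Pg g (Pg g (u s)) x * (hmM X Z (u s) x - E * u s x) =
      -(∑ s, ∫ x, Pg g (Pg g (u s)) x * ∑ k, ∑ i, dv k i (dv k i (u s)) x) +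
      (∑ s, ∫ x, rep x * (Pg g (Pg g (u s)) x * u s x)) -
      (∑ s, ∫ x, (∑ k, pot X Z (x k)) * (Pg g (Pg g (u s)) x * u s x)) -
      E * (∑ s, ∫ x, Pg g (Pg g (u s)) x * u s x) := by
    rw [Finset.sum_congr rfl fun s _ =>
      BIDM_split hINT X Z E (hPPu s).1 (hPPu s).2 (hu s).1 (hu s).2, Finset.sum_sub_distrib,
      Finset.sum_sub_distrib, Finset.sum_add_distrib, Finset.sum_neg_distrib,
      ← Finset.mul_sum]
  have hCC : C3 ≤ C1 + C2 * C3 + C3 := by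
    have : 0 ≤ C2 * C3 := by positivity
    linarith
  have hYm := YY_mono X Z u hCC hD.z1 (d := d)
  refine ⟨y0.trans hYm, ?_⟩
  rw [a6]
  unfold QM
  rw [a4]
  have hY0 : 0 ≤ YY (C1 + C2 * C3 + C3) d z X Z u := y0.trans hYm
  have b1 : 0 ≤ kin u := bid_kin u
  have b2 : 0 ≤ one (ind S) u := bid_one _ (BIDM_ind S) u
  generalize (∑ s, ∫ x, Pg g (Pg g (u s)) x * ∑ k, ∑ i, dv k i (dv k i (u s)) x) = L at *
  generalize (∑ s, ∫ x, rep x * (Pg g (Pg g (u s)) x * u s x)) = Rp at *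
  generalize (∑ s, ∫ x, (∑ k, pot X Z (x k)) * (Pg g (Pg g (u s)) x * u s x)) = At at *
  generalize (∑ s, ∫ x, Pg g (Pg g (u s)) x * u s x) = I4 at *
  generalize kin (fun s => Pg g (u s)) = X1 at *
  generalize pair (fun s => Pg g (u s)) = X2 at *
  generalize one (pot X Z) (fun s => Pg g (u s)) = X3 at *
  generalize one (ind S) u = B1 at *
  generalize kin u = K1 at *
  generalize (∑ s, ∫ x, D2 X Z g x * u s x ^ 2) = DD2 at *
  generalize YY C3 d z X Z u = Y3 at *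
  generalize YY (C1 + C2 * C3 + C3) d z X Z u = Y4 at *
  have c1 : C2 * K ^ 2 / ρ ^ 2 * (C3 * Y3) ≤ C2 * C3 * (K ^ 2 * (Y4 / ρ ^ 2)) := by
    have : C2 * K ^ 2 / ρ ^ 2 * (C3 * Y3) ≤ C2 * K ^ 2 / ρ ^ 2 * (C3 * Y4) :=
      mul_le_mul_of_nonneg_left (mul_le_mul_of_nonneg_left hYm hC3.le) c0
    refine this.trans (le_of_eq ?_)
    ring
  have c2 : 0 ≤ C2 * K ^ 2 / ρ ^ 2 * (C3 * Y3) := mul_nonneg c0 (mul_nonneg hC3.le y0)
  have c3 : 0 ≤ C1 * (K ^ 2 * (Y4 / ρ ^ 2)) := by positivity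
  have c4 : 0 ≤ (C2 * C3 + C3) * (K ^ 2 * (K1 / ρ ^ 2)) := by positivity
  have c5 : 0 ≤ (C2 * C3 + C3) * (K ^ 2 * (B1 / ρ ^ 4)) := by positivity
  have c6 : 0 ≤ C3 * (K ^ 2 * (Y4 / ρ ^ 2)) := by positivity
  have e1 : (C1 + C2 * C3 + C3) * K ^ 2 * ((K1 + Y4) / ρ ^ 2 + B1 / ρ ^ 4) =
      C1 * K ^ 2 * (K1 / ρ ^ 2 + B1 / ρ ^ 4) + C2 * C3 * (K ^ 2 * (Y4 / ρ ^ 2)) +
      (C1 * (K ^ 2 * (Y4 / ρ ^ 2)) + (C2 * C3 + C3) * (K ^ 2 * (K1 / ρ ^ 2)) +
      (C2 * C3 + C3) * (K ^ 2 * (B1 / ρ ^ 4)) + C3 * (K ^ 2 * (Y4 / ρ ^ 2))) := by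
    ring
  rw [e1]
  clear a6 a4 hs dE yB yI dI
  linarith [a1, key, hsum, c1, c2, c3, c4, c5, c6]

theorem MSZ (h1 : ST_DBS) (h2 : ST_V2S) (h3 : ST_LOCY) (hCSQ : ST_CSQM) (hSTB : ST_STB)
    (hAID : ST_AIDM) (hCID : ST_CIDM) (hKIN : ST_KINM) (hERR : ST_ERR) (_hQHM : ST_QHM)
    (hINT : ST_INTM) (hAED : ST_AED) (hPAN : ST_PAN) (_hIBP : ST_IBP) : ST_MSZ := by
  intro d hd hd1
  obtain ⟨CB, hCB, hB⟩ := MSZ_bid h1 h2 h3 hSTB hKIN hINT hAED hPAN d hd hd1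
  refine ⟨3 * CB + CB, by positivity, ?_⟩
  intro z K r B E n M X Z g S hD hLow hK1 hr hrd hg hnear hfar hS hgS
  have hZ := hD.nuc.1
  obtain ⟨CE, hCE, hErr⟩ := hERR n g hg.sm hg.cs
  have hM0 : 0 ≤ |B| := abs_nonneg B
  have hn0 : (0 : ℝ) ≤ n := Nat.cast_nonneg n
  have hMn : (0 : ℝ) ≤ M := Nat.cast_nonneg M
  have hz0 : 0 ≤ z := by linarith [hD.z1]
  obtain ⟨A, hA⟩ : ∃ A : ℝ, A = Real.sqrt (CE * (3 * |B| + 2)) := ⟨_, rfl⟩
  have hA0 : 0 ≤ A := by rw [hA]; exact Real.sqrt_nonneg _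
  obtain ⟨Nm, hNm⟩ : ∃ Nm : ℝ, Nm = 3 * K ^ 2 * (2 * n) := ⟨_, rfl⟩
  have hNm0 : 0 ≤ Nm := by rw [hNm]; positivity
  obtain ⟨Ym, hYm⟩ : ∃ Ym : ℝ, Ym = |B| + |nucR X Z| * 2 +
    CB * (z ^ 2 * M + z * (M * (n * 2 + 4 * |B|))) := ⟨_, rfl⟩
  have hYm0 : 0 ≤ Ym := by rw [hYm]; positivity
  obtain ⟨Bm, hBm⟩ : ∃ Bm : ℝ, Bm = CB * K ^ 2 * ((|B| + Ym) / r ^ 2 +
    (2 * n) / r ^ 4) := ⟨_, rfl⟩
  have hBm0 : 0 ≤ Bm := by rw [hBm]; positivity
  obtain ⟨pm, hpm⟩ : ∃ pm : ℝ, pm = CE * (|B| + 2) := ⟨_, rfl⟩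
  have hpm0 : 0 ≤ pm := by rw [hpm]; positivity
  refine ⟨A * Bm + Nm * A + A * A + 4 * pm * A + 1, by positivity, ?_⟩
  intro u hu ha hsq hkin hpair hone hdd hres
  have hMM : B ≤ |B| := le_abs_self B
  obtain ⟨hF, hP, hFP⟩ := hSTB n g u hg.sm hu
  obtain ⟨hFa, hPa⟩ := hFP ha
  obtain ⟨hFF, _, _⟩ := hSTB n g _ hg.sm hF
  obtain ⟨hFPs, hPP, _⟩ := hSTB n g _ hg.sm hP
  obtain ⟨e1, e2, e3, e4⟩ := hErr u hu
  have hkin0 := shl_kin_nonneg u
  have hsq0 := shl_sq_nonneg u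
  have hdd0 := shl_dd_nonneg u
  have hpair0 := shl_pair_nonneg u
  have hone0 : 0 ≤ one (pot X Z) u := shl_one_nonneg _ (SHLM_pot_nonneg hZ) u
  have hball0 : 0 ≤ one (ind S) u := shl_one_nonneg _ (SHLM_ind_nonneg S) u
  have hball1 : one (ind S) u ≤ 2 * n := by
    have := SHLM_ind_one S hu
    nlinarith
  have hf := fun s => SHLM_f hINT X Z E (hu s).1 (hu s).2
  have hcs : ∀ w : Wf n, Sm w → PW.sq w ≤ CE * (3 * |B| + 2) →
      |∑ s, ∫ x, w s x * (hmM X Z (u s) x - E * u s x)| ≤ A * Real.sqrt (resM X Z E u) := by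
    intro w hw hwb
    have h1 := shl_cs w (fun s x => hmM X Z (u s) x - E * u s x) (fun s => (hw s).1.continuous)
      (fun s => (hw s).2) (fun s => (hf s).1) (fun s => (hf s).2)
    refine h1.trans ?_
    refine mul_le_mul_of_nonneg_right ?_ (Real.sqrt_nonneg _)
    rw [hA]
    exact Real.sqrt_le_sqrt hwb
  have ba := hcs _ hFF (by nlinarith)
  have be := hcs _ hFPs (by nlinarith)
  have bb := hcs _ hPP (by nlinarith)
  have i1 := hAID n M X Z E g u hg.sm hu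
  have i2 := hCID n M X Z E g u hg.sm hu
  obtain ⟨hY0, i3⟩ := hB z K r E n M X Z g S u hD hK1 hr hrd hg hnear hfar hS hgS hu hsq
  have i4 := hCSQ n M X Z E _ _ hLow hF hFa hP hPa
  have i5 := hLow _ hF hFa
  have i6 := SHLM_grd_one hS hg hgS hu
  have hN0 : 0 ≤ one (grd g) u := shl_one_nonneg _ (fun y => by
    unfold grd
    exact Finset.sum_nonneg (fun i _ => sq_nonneg _)) u
  have hp0 : 0 ≤ PW.sq (fun s => Pg g (u s)) := shl_sq_nonneg _
  have hp1 : PW.sq (fun s => Pg g (u s)) ≤ pm := by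
    rw [hpm]
    refine e2.trans (mul_le_mul_of_nonneg_left ?_ hCE.le)
    linarith
  have hYle : YY CB d z X Z u ≤ Ym := by
    have q1 := nearB X d hu
    have q2 : (M : ℝ) * (n * PW.sq u + 4 * kin u) ≤ M * (n * 2 + 4 * |B|) := by
      refine mul_le_mul_of_nonneg_left ?_ hMn
      have := mul_le_mul_of_nonneg_left hsq hn0
      linarith
    have q3 : z * one (near1 X d) u ≤ z * (M * (n * 2 + 4 * |B|)) :=
      mul_le_mul_of_nonneg_left (q1.trans q2) hz0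
    have q4 : CB * (z ^ 2 * M + z * one (near1 X d) u) ≤
        CB * (z ^ 2 * M + z * (M * (n * 2 + 4 * |B|))) :=
      mul_le_mul_of_nonneg_left (by linarith) hCB.le
    have q5 : nucR X Z * PW.sq u ≤ |nucR X Z| * 2 :=
      (mul_le_mul_of_nonneg_right (le_abs_self _) hsq0).trans
        (mul_le_mul_of_nonneg_left hsq (abs_nonneg _))
    rw [hYm]
    unfold YY QM
    linarith
  obtain ⟨ρ, hρ⟩ : ∃ ρ : ℝ, ρ = Real.sqrt (resM X Z E u) := ⟨_, rfl⟩
  have hρ0 : 0 ≤ ρ := by rw [hρ]; exact Real.sqrt_nonneg _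
  have hρ1 : ρ ≤ 1 := by
    rw [hρ]
    exact Real.sqrt_le_one.2 hres
  rw [← hρ] at ba be bb ⊢
  have hYY := YY_mono X Z u (show CB ≤ 3 * CB + CB by linarith) hD.z1 (d := d)
  obtain ⟨Xq, hX⟩ : ∃ Xq : ℝ, Xq = (kin u + YY CB d z X Z u) / r ^ 2 +
      one (ind S) u / r ^ 4 := ⟨_, rfl⟩
  have hX0 : 0 ≤ Xq := by rw [hX]; positivity
  have hXX : Xq ≤ (kin u + YY (3 * CB + CB) d z X Z u) / r ^ 2 + one (ind S) u / r ^ 4 := by
    rw [hX]
    gcongr
  rw [← hX] at i3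
  have hXm : CB * K ^ 2 * Xq ≤ Bm := by
    rw [hBm, hX]
    refine mul_le_mul_of_nonneg_left ?_ (by positivity)
    gcongr
    linarith
  generalize (kin u + YY (3 * CB + CB) d z X Z u) / r ^ 2 + one (ind S) u / r ^ 4 = X2 at hXX ⊢
  generalize (∑ s, ∫ x, Fg g (Fg g (u s)) x * (hmM X Z (u s) x - E * u s x)) = a at ba i1
  generalize (∑ s, ∫ x, Fg g (Pg g (u s)) x * (hmM X Z (u s) x - E * u s x)) = e at be i2
  generalize (∑ s, ∫ x, Pg g (Pg g (u s)) x * (hmM X Z (u s) x - E * u s x)) = b at bb i3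
  rw [i1, i2] at i4
  have i5' : 0 ≤ a + one (grd g) u := by rw [← i1]; linarith
  generalize (QM X Z (fun s => Pg g (u s)) - E * PW.sq (fun s => Pg g (u s))) = q2 at i3 i4
  clear hX hYle hYm hY0 hYY
  generalize PW.sq (fun s => Pg g (u s)) = p at *
  generalize one (grd g) u = N at *
  generalize one (ind S) u = NB at *
  have k1 : (e - 2 * p) ^ 2 ≤ (a + N) * (-b + CB * K ^ 2 * Xq) :=
    i4.trans (mul_le_mul_of_nonneg_left i3 i5')
  have hBX0 : 0 ≤ CB * K ^ 2 * Xq := by positivity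
  have hNle : N ≤ Nm := by
    rw [hNm]
    exact i6.trans (mul_le_mul_of_nonneg_left hball1 (by positivity))
  have habs_a := abs_nonneg a
  have habs_b := abs_nonneg b
  have habs_e := abs_nonneg e
  have k2 : N * |b| ≤ Nm * A * ρ := by
    calc N * |b| ≤ Nm * (A * ρ) := mul_le_mul hNle bb habs_b hNm0
      _ = Nm * A * ρ := by ring
  have k3 : |a| * (CB * K ^ 2 * Xq) ≤ A * Bm * ρ := by
    calc |a| * (CB * K ^ 2 * Xq) ≤ (A * ρ) * Bm := mul_le_mul ba hXm hBX0 (by positivity)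
      _ = A * Bm * ρ := by ring
  have k4 : |a| * |b| ≤ A * A * ρ := by
    calc |a| * |b| ≤ (A * ρ) * (A * ρ) := mul_le_mul ba bb habs_b (by positivity)
      _ = A * A * ρ * ρ := by ring
      _ ≤ A * A * ρ * 1 := mul_le_mul_of_nonneg_left hρ1 (by positivity)
      _ = A * A * ρ := by ring
  have k5 : 4 * p * |e| ≤ 4 * pm * A * ρ := by
    calc 4 * p * |e| ≤ (4 * pm) * (A * ρ) :=
          mul_le_mul (by linarith) be habs_e (by positivity)
      _ = 4 * pm * A * ρ := by ring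
  have k6 : N * (CB * K ^ 2 * Xq) ≤ (3 * CB + CB) * K ^ 4 * (NB * X2) := by
    calc N * (CB * K ^ 2 * Xq) ≤ (3 * K ^ 2 * NB) * (CB * K ^ 2 * Xq) :=
          mul_le_mul_of_nonneg_right i6 hBX0
      _ = 3 * CB * K ^ 4 * (NB * Xq) := by ring
      _ ≤ 3 * CB * K ^ 4 * (NB * X2) :=
          mul_le_mul_of_nonneg_left (mul_le_mul_of_nonneg_left hXX hball0) (by positivity)
      _ ≤ (3 * CB + CB) * K ^ 4 * (NB * X2) := by
          have : 0 ≤ CB * K ^ 4 * (NB * X2) :=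
            mul_nonneg (by positivity) (mul_nonneg hball0 (hX0.trans hXX))
          linarith
  have k7 : -(N * b) ≤ N * |b| := by nlinarith [neg_abs_le b]
  have k8 : a * (CB * K ^ 2 * Xq) ≤ |a| * (CB * K ^ 2 * Xq) :=
    mul_le_mul_of_nonneg_right (le_abs_self a) hBX0
  have k9 : -(a * b) ≤ |a| * |b| := by
    rw [← abs_mul]
    exact neg_le_of_neg_le (by linarith [neg_abs_le (a * b)])
  have k10 : 4 * p * e ≤ 4 * p * |e| := mul_le_mul_of_nonneg_left (le_abs_self e) (by linarith)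
  have k11 : 0 ≤ e ^ 2 := sq_nonneg e
  have k12 : (e - 2 * p) ^ 2 = e ^ 2 - 4 * p * e + 4 * p ^ 2 := by ring
  have k13 : (a + N) * (-b + CB * K ^ 2 * Xq) =
      -(a * b) + a * (CB * K ^ 2 * Xq) + -(N * b) + N * (CB * K ^ 2 * Xq) := by ring
  have k14 : (A * Bm + Nm * A + A * A + 4 * pm * A + 1) * ρ =
      A * Bm * ρ + Nm * A * ρ + A * A * ρ + 4 * pm * A * ρ + ρ := by ring
  have k15 : 0 ≤ p ^ 2 := sq_nonneg p
  rw [k14]
  linarith

end Pool.Agent.Helper80.HV
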